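import Mathlib

set_option autoImplicit false

namespace Pool.Agent.Results.MP_0e848e_co.Tope
open Set Polynomial Matrix

/-- complement of the hyperplanes `a i ⬝ x = 0` -/
def compl {n d : ℕ} (a : Fin n → Fin d → ℝ) : Set (Fin d → ℝ) := {x | ∀ i, a i ⬝ᵥ x ≠ 0}

/-- chambers: connected components of the complement -/
def Ch {n d : ℕ} (a : Fin n → Fin d → ℝ) : Type :=
  {C : Set (Fin d → ℝ) // ∃ x ∈ compl a, C = connectedComponentIn (compl a) x}

/-- number of hyperplanes separating two chambers -/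
noncomputable def dist {n d : ℕ} (a : Fin n → Fin d → ℝ) (C D : Ch a) : ℕ :=
  {i : Fin n | ∀ x ∈ C.1, ∀ y ∈ D.1, (a i ⬝ᵥ x) * (a i ⬝ᵥ y) < 0}.ncard

/-- tope graph -/
def tope {n d : ℕ} (a : Fin n → Fin d → ℝ) : SimpleGraph (Ch a) :=
  SimpleGraph.fromRel (fun C D => dist a C D = 1)

/-- magnitude: sum of the entries of the inverse `q`-Varchenko matrix -/
noncomputable def mag {n d : ℕ} (a : Fin n → Fin d → ℝ) [Fintype (Ch a)] [DecidableEq (Ch a)] :
    RatFunc ℚ :=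
  ∑ C, ∑ D, (Matrix.of (fun C D : Ch a => (RatFunc.X : RatFunc ℚ) ^ dist a C D))⁻¹ C D

def aZ : Fin 6 → Fin 5 → ℤ :=
  ![![1, 0, 0, 0, 0], ![0, 1, 0, 0, 0], ![0, 0, 1, 0, 0], ![-1, -1, -1, 0, 0], ![0, 0, 0, 1, 0],
    ![0, 0, 0, 0, 1]]

def a0 : Fin 6 → Fin 5 → ℝ := fun i j => aZ i j

def ok (s : Fin 64) : Prop := s.val % 16 ≠ 0 ∧ s.val % 16 ≠ 15

instance : DecidablePred ok := fun s => inferInstanceAs (Decidable (s.val % 16 ≠ 0 ∧ s.val % 16 ≠ 15))

abbrev T : Type := {s : Fin 64 // ok s}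

def sg (s : T) (i : Fin 6) : Bool := s.1.val.testBit i.val

def pZ (s : T) : Fin 5 → ℤ := fun j =>
  if j.val < 3 then (if s.1.val.testBit j.val then (if sg s 3 then 1 else 3)
    else (if sg s 3 then -3 else -1))
  else if s.1.val.testBit (j.val + 1) then 1 else -1

theorem pZ_ok : ∀ (s : T) (i : Fin 6), if sg s i = true then 0 < aZ i ⬝ᵥ pZ s else aZ i ⬝ᵥ pZ s < 0 := by
  decide +kernel

def cell (s : T) : Set (Fin 5 → ℝ) :=
  {x | ∀ i, if sg s i = true then 0 < a0 i ⬝ᵥ x else a0 i ⬝ᵥ x < 0}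

theorem pt_mem (s : T) : (fun j => (pZ s j : ℝ)) ∈ cell s := by
  intro i
  have h := pZ_ok s i
  have e : a0 i ⬝ᵥ (fun j => (pZ s j : ℝ)) = ((aZ i ⬝ᵥ pZ s : ℤ) : ℝ) := by
    simp [a0, dotProduct]
  rw [e]
  split_ifs at h ⊢ <;> exact_mod_cast h

theorem cell_sub (s : T) : cell s ⊆ compl a0 := by
  intro x hx i
  have := hx i
  split_ifs at this
  · exact this.ne'
  · exact this.ne

theorem cell_conv (s : T) : Convex ℝ (cell s) := by
  intro x hx y hy u v hu hv huv i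
  have h1 := hx i
  have h2 := hy i
  rw [dotProduct_add, dotProduct_smul, dotProduct_smul, smul_eq_mul, smul_eq_mul]
  rcases hu.eq_or_lt with rfl | hu'
  · obtain rfl : v = 1 := by linarith
    simpa using h2
  · split_ifs at h1 h2 ⊢
    · nlinarith [mul_pos hu' h1, mul_nonneg hv h2.le]
    · nlinarith [mul_pos hu' (neg_pos.2 h1), mul_nonneg hv (neg_pos.2 h2).le]

theorem comp_eq (s : T) (x : Fin 5 → ℝ) (hx : x ∈ cell s) :
    connectedComponentIn (compl a0) x = cell s := by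
  apply Subset.antisymm
  · intro y hy i
    have hp := isPreconnected_connectedComponentIn (F := compl a0) (x := x)
    have hc : ContinuousOn (fun z => a0 i ⬝ᵥ z) (connectedComponentIn (compl a0) x) :=
      (continuous_const.dotProduct continuous_id).continuousOn
    have hn : ∀ z ∈ connectedComponentIn (compl a0) x, a0 i ⬝ᵥ z ≠ 0 :=
      fun z hz => connectedComponentIn_subset _ _ hz i
    have hm := mem_connectedComponentIn (cell_sub s hx)
    have h1 := hx i
    split_ifs at h1 ⊢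
    · exact hp.lt_of_ne hc hn ⟨x, hm, h1⟩ hy
    · exact hp.gt_of_ne hc hn ⟨x, hm, h1⟩ hy
  · exact (cell_conv s).isPreconnected.subset_connectedComponentIn hx (cell_sub s)

theorem ex_bits : ∀ f : Fin 6 → Bool, ¬ (f 0 = f 1 ∧ f 1 = f 2 ∧ f 2 = f 3) →
    ∃ s : T, ∀ i, sg s i = f i := by decide +kernel

theorem ex_cell (x : Fin 5 → ℝ) (hx : x ∈ compl a0) : ∃ s, x ∈ cell s := by
  classical
  have hs : a0 0 ⬝ᵥ x + a0 1 ⬝ᵥ x + a0 2 ⬝ᵥ x + a0 3 ⬝ᵥ x = 0 := by
    simp [a0, aZ, dotProduct, Fin.sum_univ_succ]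
    ring
  obtain ⟨s, h⟩ := ex_bits (fun i => decide (0 < a0 i ⬝ᵥ x)) (by
    rintro ⟨h1, h2, h3⟩
    simp only [decide_eq_decide] at h1 h2 h3
    have := hx 0
    by_cases h0 : 0 < a0 0 ⬝ᵥ x
    · have b1 := h1.1 h0
      have b2 := h2.1 b1
      have b3 := h3.1 b2
      linarith
    · have b1 := h1.not.1 h0
      have b2 := h2.not.1 b1
      have b3 := h3.not.1 b2
      have b0 : a0 0 ⬝ᵥ x < 0 := lt_of_le_of_ne (not_lt.1 h0) this
      linarith [not_lt.1 b1, not_lt.1 b2, not_lt.1 b3])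
  refine ⟨s, fun i => ?_⟩
  rw [h i]
  by_cases h0 : 0 < a0 i ⬝ᵥ x
  · simp [h0]
  · simpa [h0] using lt_of_le_of_ne (not_lt.1 h0) (hx i)

def toCh (s : T) : Ch a0 := ⟨cell s, _, cell_sub s (pt_mem s), (comp_eq s _ (pt_mem s)).symm⟩

def ham (s t : T) : ℕ := (Finset.univ.filter (fun i => sg s i ≠ sg t i)).card

theorem dist_eq (s t : T) : dist a0 (toCh s) (toCh t) = ham s t := by
  unfold dist ham
  rw [← Set.ncard_coe_finset]
  congr 1
  ext i
  simp only [Finset.coe_filter, Finset.mem_univ, true_and, Set.mem_ofPred_eq]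
  constructor
  · intro h e
    have h1 := h _ (pt_mem s) _ (pt_mem t)
    have h2 := pt_mem s i
    have h3 := pt_mem t i
    rw [e] at h2
    split_ifs at h2 h3 <;> nlinarith
  · intro h x hx y hy
    have h2 := hx i
    have h3 := hy i
    cases e1 : sg s i <;> cases e2 : sg t i <;> simp only [e1, e2] at h h2 h3 <;> simp at h h2 h3 <;>
      nlinarith

theorem ham_zero : ∀ s t : T, ham s t = 0 ↔ s = t := by decide +kernel

theorem toCh_bij : Function.Bijective toCh := by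
  constructor
  · intro s t h
    rw [← ham_zero, ← dist_eq, h, dist_eq, ham_zero]
  · rintro ⟨C, x, hx, rfl⟩
    obtain ⟨s, hs⟩ := ex_cell x hx
    exact ⟨s, Subtype.ext (comp_eq s x hs).symm⟩

noncomputable def e : T ≃ Ch a0 := Equiv.ofBijective toCh toCh_bij

def ty (s : T) : Bool := xor (xor (sg s 0) (sg s 1)) (xor (sg s 2) (sg s 3))

def cn (b : Bool) (p : ℕ × Bool) : ℕ :=
  if b then (if p.2 then [1, 2, 7, 12, 7, 2, 1].getD p.1 0 else [0, 3, 6, 6, 6, 3, 0].getD p.1 0)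
  else (if p.2 then [0, 4, 8, 8, 8, 4, 0].getD p.1 0 else [1, 2, 5, 8, 5, 2, 1].getD p.1 0)

theorem cnt : ∀ s : T, ∀ p ∈ Finset.range 7 ×ˢ (Finset.univ : Finset Bool),
    (Finset.univ.filter (fun t : T => (ham s t, ty t) = p)).card = cn (ty s) p := by decide +kernel

theorem ham_lt (s t : T) : ham s t < 7 :=
  lt_of_le_of_lt (Finset.card_le_univ _) (by simp)

def W {R : Type} [CommRing R] (q : R) (b : Bool) : R := if b then q ^ 2 - q + 1 else (q - 1) ^ 2

theorem row {R : Type} [CommRing R] (q : R) (s : T) :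
    ∑ t : T, q ^ ham s t * W q (ty t) = (1 + q) ^ 4 * (1 + q ^ 4) := by
  have h := Finset.sum_fiberwise_of_maps_to' (s := Finset.univ)
    (t := Finset.range 7 ×ˢ (Finset.univ : Finset Bool)) (g := fun t : T => (ham s t, ty t))
    (fun t _ => by simp [ham_lt]) (fun p => q ^ p.1 * W q p.2)
  rw [← h, Finset.sum_congr rfl (fun p hp => by rw [Finset.sum_const, cnt s p hp])]
  cases ty s <;> simp [Finset.sum_product, Finset.sum_range_succ, cn, W] <;> ring

theorem mag_eq [Fintype (Ch a0)] [DecidableEq (Ch a0)] : ∃ P : ℚ[X],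
    mag a0 = algebraMap _ _ P / algebraMap _ _ ((1 + X) ^ 4 * (1 + X ^ 4) : ℚ[X]) := by
  set M := Matrix.of (fun C D : Ch a0 => (RatFunc.X : RatFunc ℚ) ^ dist a0 C D) with hM
  let Mp : Matrix (Ch a0) (Ch a0) ℚ[X] := Matrix.of (fun C D => X ^ dist a0 C D)
  have h1 : M = (algebraMap ℚ[X] (RatFunc ℚ)).mapMatrix Mp := by
    ext C D; simp [hM, Mp]
  have h2 : (evalRingHom (0 : ℚ)).mapMatrix Mp = 1 := by
    ext C D
    obtain ⟨s, rfl⟩ := toCh_bij.2 C
    obtain ⟨t, rfl⟩ := toCh_bij.2 D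
    simp only [Mp, RingHom.mapMatrix_apply, Matrix.map_apply, Matrix.of_apply, dist_eq,
      coe_evalRingHom, eval_pow, eval_X, Matrix.one_apply, toCh_bij.1.eq_iff, ← ham_zero, zero_pow_eq]
  have h3 : Mp.det ≠ 0 := by
    intro h
    have := (evalRingHom (0 : ℚ)).map_det Mp
    rw [h, h2] at this
    simp at this
  have h4 : IsUnit M.det := by
    rw [h1, ← RingHom.map_det, isUnit_iff_ne_zero]
    exact (map_ne_zero_iff _ (IsFractionRing.injective _ _)).2 h3
  have hQ : ((1 + X) ^ 4 * (1 + X ^ 4) : ℚ[X]) ≠ 0 := by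
    intro h
    have := congrArg (eval 0) h
    simp at this
  have hQ' : algebraMap ℚ[X] (RatFunc ℚ) ((1 + X) ^ 4 * (1 + X ^ 4)) ≠ 0 :=
    (map_ne_zero_iff _ (IsFractionRing.injective _ _)).2 hQ
  set Q := algebraMap ℚ[X] (RatFunc ℚ) ((1 + X) ^ 4 * (1 + X ^ 4)) with hQd
  let w : Ch a0 → RatFunc ℚ := fun C => algebraMap ℚ[X] _ (W X (ty (e.symm C))) / Q
  have h5 : M *ᵥ w = fun _ => 1 := by
    funext C
    obtain ⟨s, rfl⟩ := toCh_bij.2 C
    simp only [Matrix.mulVec, dotProduct, hM, Matrix.of_apply, w, ← mul_div_assoc, ← Finset.sum_div]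
    rw [div_eq_one_iff_eq hQ', ← e.sum_comp, hQd, ← row X s, map_sum]
    apply Finset.sum_congr rfl
    intro t _
    rw [e.symm_apply_apply]
    show RatFunc.X ^ dist a0 (toCh s) (toCh t) * _ = _
    rw [dist_eq]
    simp
  have h6 : M⁻¹ *ᵥ (fun _ => 1) = w := by
    rw [← h5, Matrix.mulVec_mulVec, Matrix.nonsing_inv_mul _ h4, Matrix.one_mulVec]
  refine ⟨∑ C, W X (ty (e.symm C)), ?_⟩
  rw [map_sum, Finset.sum_div]
  apply Finset.sum_congr rfl
  intro C _
  have := congrFun h6 C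
  simp only [Matrix.mulVec, dotProduct, mul_one] at this
  exact this

theorem not_dvd : ¬ cyclotomic 12 ℚ ∣ ((1 + X) ^ 4 * (1 + X ^ 4) : ℚ[X]) := by
  rintro ⟨P, h⟩
  have hz := Complex.isPrimitiveRoot_exp 12 (by norm_num)
  set z := Complex.exp (2 * Real.pi * Complex.I / (12 : ℕ))
  have h1 : aeval z (cyclotomic 12 ℚ) = 0 := by
    rw [aeval_def, eval₂_eq_eval_map, map_cyclotomic]
    exact hz.isRoot_cyclotomic (by norm_num)
  have h2 := congrArg (aeval z) h
  rw [map_mul (aeval z) (cyclotomic 12 ℚ), h1, zero_mul] at h2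
  simp only [map_mul, map_pow, map_add, map_one, aeval_X] at h2
  have h3 : z ^ 8 = 1 := by
    rcases mul_eq_zero.1 h2 with h4 | h4
    · have : z = -1 := by linear_combination pow_eq_zero_iff (by norm_num) |>.1 h4
      rw [this]; norm_num
    · linear_combination (z ^ 4 - 1) * h4
  exact absurd ((hz.pow_eq_one_iff_dvd 8).1 h3) (by norm_num)

def dg (s : T) : ℕ := (Finset.univ.filter (fun t : T => s ≠ t ∧ (ham s t = 1 ∨ ham t s = 1))).card

theorem nb (s : T) : Nat.card ((tope a0).neighborSet (toCh s)) = dg s := by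
  unfold dg
  rw [← Fintype.card_subtype, ← Nat.card_eq_fintype_card]
  symm
  apply Nat.card_congr
  refine e.subtypeEquiv (fun t => ?_)
  show _ ↔ (tope a0).Adj (toCh s) (toCh t)
  unfold tope
  rw [SimpleGraph.fromRel_adj, dist_eq, dist_eq, toCh_bij.1.ne_iff]

theorem result : ∃ (n d r : ℕ) (a : Fin n → Fin d → ℝ) (_ : Fintype (Ch a)) (_ : DecidableEq (Ch a)),
    (∀ i, a i ≠ 0) ∧ (∀ i j, i ≠ j → {x | a i ⬝ᵥ x = 0} ≠ {x | a j ⬝ᵥ x = 0}) ∧
    (Matrix.of a).rank = r ∧ Odd r ∧ 3 ≤ r ∧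
    (¬ ∀ C D : Ch a, ∃ φ : tope a ≃g tope a, φ C = D) ∧
    ¬ cyclotomic (2 * n) ℚ ∣ (mag a).denom := by
  classical
  refine ⟨6, 5, 5, a0, Fintype.ofEquiv T e, inferInstance, ?_, ?_, ?_, by decide, by norm_num, ?_, ?_⟩
  · intro i h
    have := cell_sub _ (pt_mem ⟨1, by decide⟩) i
    rw [h] at this
    simp at this
  · have key : ∀ i j : Fin 6, i ≠ j → ∃ u v : Fin 5,
        aZ i u * aZ j v - aZ i v * aZ j u ≠ 0 := by decide +kernel
    intro i j hij h
    obtain ⟨u, v, huv⟩ := key i j hij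
    have h1 : (Pi.single v (a0 i u) - Pi.single u (a0 i v) : Fin 5 → ℝ) ∈ {x | a0 i ⬝ᵥ x = 0} := by
      simp only [Set.mem_ofPred_eq, dotProduct_sub, dotProduct_single]; ring
    rw [h] at h1
    simp only [Set.mem_ofPred_eq, dotProduct_sub, dotProduct_single, a0] at h1
    apply huv
    have : ((aZ i u * aZ j v - aZ i v * aZ j u : ℤ) : ℝ) = 0 := by push_cast; linarith
    exact_mod_cast this
  · apply le_antisymm
    · simpa using Matrix.rank_le_width (Matrix.of a0)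
    · have h1 : (Matrix.of a0).submatrix ![0, 1, 2, 4, 5] id = (1 : Matrix (Fin 5) (Fin 5) ℝ) := by
        ext i j
        fin_cases i <;> fin_cases j <;> simp [a0, aZ]
      have h2 := Matrix.rank_submatrix_le (Matrix.of a0) ![0, 1, 2, 4, 5] (Equiv.refl _)
      have h3 : ((Matrix.of a0).submatrix ![0, 1, 2, 4, 5] id).rank = 5 := by
        rw [h1, Matrix.rank_one]; simp
      exact le_of_eq_of_le h3.symm h2
  · intro h
    obtain ⟨φ, hφ⟩ := h (toCh ⟨1, by decide⟩) (toCh ⟨3, by decide⟩)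
    have h1 := Nat.card_congr (φ.mapNeighborSet (toCh ⟨1, by decide⟩))
    rw [hφ, nb, nb] at h1
    revert h1
    decide +kernel
  · intro h
    obtain ⟨P, hP⟩ := @mag_eq (Fintype.ofEquiv T e) inferInstance
    rw [hP] at h
    exact not_dvd (h.trans (RatFunc.denom_div_dvd _ _))

end Pool.Agent.Results.MP_0e848e_co.Tope
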